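import Pool.Agent.helper62.EN.SpecP
import Pool.Agent.helper62.RS.All

/-!
# MP_07c750_an, project EN, row ksy:GMU: the limit for one packet
-/

set_option autoImplicit false

open scoped MatrixGroups ContDiff Topology UpperHalfPlane ComplexConjugate
open UpperHalfPlane MeasureTheory Filter Set

namespace Pool.Agent.EN

open Pool.Agent.RS

theorem GMU_log (K A n₀ r : ℝ) (hK : 0 < K) (hA : 0 < A) (hn : 0 < n₀) (hr : 0 < r) :
    Real.log (n₀ * (K / Real.sqrt r) / (A / r)) = Real.log r / 2 + Real.log (n₀ * K / A) := by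
  have hs : 0 < Real.sqrt r := Real.sqrt_pos.2 hr
  have h1 : n₀ * (K / Real.sqrt r) / (A / r) = Real.sqrt r * (n₀ * K / A) := by
    have h2 : Real.sqrt r * Real.sqrt r = r := Real.mul_self_sqrt hr.le
    field_simp
    rw [sq, h2]
  rw [h1, Real.log_mul hs.ne' (by positivity), Real.log_sqrt hr.le]

/-- a good packet -/
theorem GMU_gd (Γ : Subgroup SL(2, ℝ)) (F : Set ℍ) (A K r0 δ : ℝ) (c : ℍ → ℂ) (hΓ : QU.SurfaceGroup Γ)
    (hF : QU.NiceDom Γ F) (hc : TB (1 / 4) c) (hA : 0 < A) (hK : 0 < K) (hr0 : 1 ≤ r0)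
    (H : ∀ r' : ℝ, r0 ≤ r' → (∀ u : ℍ → ℂ, InvC Γ u → qn F c r' u ≤ A / r' * nn F u) ∧
      (∀ g g' : SL(2, ℝ), ‖∫ z : ℍ, RS.pk r' c (g⁻¹ • z) * RS.pk r' c (g'⁻¹ • z)‖ ≤ K / Real.sqrt r') ∧
      ∀ (s' : ℝ) (ψ : ℍ → ℂ), |s' - r'| ≤ 1 → EigL Γ (1 / 4 + s' ^ 2) ψ → (1 - δ ^ 2) * (A / r') * nn F ψ ≤ qn F c r' ψ)
    (n₀ : ℕ) (hn : 1 ≤ n₀)
    (hE : ∀ (c : ℍ → ℂ) (r B : ℝ), TB (1 / 4) c →
      (∀ g g' : SL(2, ℝ), ‖∫ z : ℍ, pk r c (g⁻¹ • z) * pk r c (g'⁻¹ • z)‖ ≤ B) →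
        ∀ g g', ‖kk Γ F (pk r c) g g'‖ ≤ n₀ * B) (r : ℝ) (hr : r0 ≤ r) :
    GD Γ F c r (A / r) (n₀ * (K / Real.sqrt r)) δ := by
  have hrp : 0 < r := by linarith
  have hs : 0 < Real.sqrt r := Real.sqrt_pos.2 hrp
  have hn' : (0 : ℝ) < n₀ := by exact_mod_cast hn
  obtain ⟨a1, a2, a3⟩ := H r hr
  exact ⟨hΓ, hF, hc, by positivity, by positivity, a1, fun g g' => hE c r _ hc a2 g g', a3⟩

theorem GMU_proof (h1 : WTP_stmt) (h2 : ENT_stmt) (h3 : LVF_stmt) (h4 : LM1_stmt) (h5 : XFL_stmt) (h6 : XTX_stmt)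
    (h7 : NKL_stmt) : GMU_stmt := by
  intro Γ F r N s φ β A K r0 δ c hΓ hF hr hφ hN hNb hc hA hK hr0 hδ hδ' H
  obtain ⟨n₀, hn₀, hE⟩ := RS.A_EKB Γ F hΓ hF
  obtain ⟨hC, hT, hS⟩ := h6 Γ hΓ
  obtain ⟨hfl, hpr, -⟩ := h5 Γ
  obtain ⟨g1, g2, g3⟩ := h7
  have hn' : (0 : ℝ) < n₀ := by exact_mod_cast hn₀
  have hgd : ∀ k, r0 ≤ r k → GD Γ F c (r k) (A / r k) (n₀ * (K / Real.sqrt (r k))) δ := fun k hk =>
    GMU_gd Γ F A K r0 δ c hΓ hF hc hA hK hr0 H n₀ hn₀ hE (r k) hk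
  classical
  let ρ : ℕ → Measure (XG Γ) := fun k =>
    if r0 ≤ r k then rho Γ F c (r k) (A / r k) (φ k) else Measure.dirac (mkX Γ 1)
  have hρ1 : ∀ k, r0 ≤ r k → ρ k = rho Γ F c (r k) (A / r k) (φ k) := fun k hk => if_pos hk
  have hρ : ∀ k, IsProbabilityMeasure (ρ k) := by
    intro k
    by_cases hk : r0 ≤ r k
    · rw [hρ1 k hk]
      exact (h1 Γ F c (r k) (A / r k) _ δ (N k) (s k) (φ k) (hgd k hk) hδ hδ' (hφ k) (hN k)).2.2.2.2.2.1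
    · have h : ρ k = Measure.dirac (mkX Γ 1) := if_neg hk
      rw [h]
      infer_instance
  obtain ⟨μ, hμ, hinv, ha, hb⟩ := h4 (XG Γ) (fl Γ) ρ (fun k => nk (r k)) hfl hρ (g1 r hr)
  refine ⟨μ, hμ, hinv, ?_, ?_⟩
  · intro V η a hV hV1 hη hη' hyp hlim
    obtain ⟨K', r1, hK', hyp⟩ := hyp
    obtain ⟨r2, hr2⟩ := g2 K' hK'
    refine le_of_forall_pos_le_add fun ε hε => ?_
    refine ha (fun x => V (pr Γ x)) (a + 5 * η + ε) (hV.comp hpr) ?_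
    filter_upwards [hr.eventually_ge_atTop r0, hr.eventually_ge_atTop r1, hr.eventually_ge_atTop r2,
      hlim.eventually (gt_mem_nhds (show a < a + ε by linarith))] with k k0 k1 k2 k3 t ht0 ht1
    rw [hρ1 k k0]
    have hexp : Real.exp t ≤ r k / K' := (Real.exp_le_exp.2 ht1).trans (hr2 (r k) k2)
    have h := h3 Γ F c (r k) (A / r k) _ δ (N k) (s k) (φ k) (hgd k k0) hδ hδ' (hφ k) (hN k) V η t hV hV1 hη hη'
      (fun s' ψ hs' hψ => hyp (r k) k1 s' ψ hs' hψ t ht0 hexp)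
    linarith
  · intro p P C hP hC0 hcyl hnull
    refine hb p P _ hP hnull ?_
    intro ε hε
    have hNKL := g3 r N β (Real.log (n₀ * K / A) + Real.log (2 * C)) δ (Real.log p) ε hr hN hNb hδ.le
      (Real.log_natCast_nonneg p) hε
    filter_upwards [hr.eventually_ge_atTop r0, hNKL, (g1 r hr).eventually_ge_atTop 1] with k k0 k1 k2
    rw [hρ1 k k0]
    have h := h2 Γ F c (r k) (A / r k) _ δ (N k) (s k) (φ k) (hgd k k0) hδ hδ' (hφ k) (hN k) p (nk (r k)) P C hP k2 hC0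
      (fun w => hcyl (nk (r k)) w k2)
    rw [GMU_log K A n₀ (r k) hK hA hn' (by linarith)] at h
    linarith

end Pool.Agent.EN
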