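import Pool.Agent.helper80.EN.Spec

set_option autoImplicit false

namespace Pool.Agent.helper80.EN

open Subgroup

universe u

theorem MAJ (hMAI : MAI_stmt.{u}) (hNAE : NAE_stmt.{u}) (hHPR : HPR_stmt.{u}) : MAJ_stmt.{u} := by
  intro G _ hG a ha
  obtain ⟨hN, hloc, hmax, -⟩ := hHPR G
  have htop : InL (⊤ : Subgroup G) :=
    InL.sub (⊤ : Subgroup G).subtype (Subgroup.subtype_injective _) hG
  have hc : ∀ k : G, com k a ∈ HP G := fun k => hMAI G ⊤ htop a ha k (Subgroup.mem_top k)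
  have hl : LocNilp (HP G ⊔ zpowers a) := hNAE G (HP G) a hN hloc (fun x _ => ha x)
  have hle : HP G ≤ HP G ⊔ zpowers a := le_sup_left
  have haJ : a ∈ HP G ⊔ zpowers a :=
    (le_sup_right : zpowers a ≤ HP G ⊔ zpowers a) (mem_zpowers a)
  have hconj : ∀ g : G, g * a * g⁻¹ ∈ HP G ⊔ zpowers a := by
    intro g
    have h1 : com g⁻¹ a ∈ HP G ⊔ zpowers a := hle (hc g⁻¹)
    have h2 : a * (com g⁻¹ a)⁻¹ ∈ HP G ⊔ zpowers a := mul_mem haJ (inv_mem h1)
    have h3 : a * (com g⁻¹ a)⁻¹ = g * a * g⁻¹ := by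
      unfold com
      group
    rwa [h3] at h2
  have hnorm : (HP G ⊔ zpowers a).Normal := by
    refine ⟨fun x hx g => ?_⟩
    have h1 : (HP G ⊔ zpowers a).map (MulAut.conj g).toMonoidHom ≤ HP G ⊔ zpowers a := by
      rw [Subgroup.map_sup]
      refine sup_le ?_ ?_
      · rintro _ ⟨y, hy, rfl⟩
        exact hle (hN.conj_mem y hy g)
      · rw [MonoidHom.map_zpowers, zpowers_le]
        exact hconj g
    exact h1 ⟨x, hx, rfl⟩
  exact hmax _ hnorm hl haJ

end Pool.Agent.helper80.EN
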